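import Pool.Agent.H56.ES.Cantor

/-!
# MP_6045a2_an: sets obtained by removing dust, and symmetric Cantor sets of positive measure,
contain similar copies of sparse sequences

Part 1 is the general theorem; part 2 is its application to symmetric Cantor sets.
-/

open Set

namespace Pool.Agent.Results.MP_6045a2_an.UniformDust

/-- at most `M` indices `n` satisfy `t < |x n| ≤ 2 t` -/
def Shell (x : ℕ → ℝ) (M : ℕ) (t : ℝ) : Prop := {n | t < |x n| ∧ |x n| ≤ 2 * t}.encard ≤ M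

/-- the length `l k` of the intervals of stage `k`: `l 0 = 1`, `l (k + 1) = l k * (1 - κ k) / 2` -/
noncomputable def len (κ : ℕ → ℝ) (k : ℕ) : ℝ := ∏ i ∈ Finset.range k, (1 - κ i) / 2

/-- the left end points of the intervals of stage `k`: an interval `[u, u + l k]` of stage `k`
contains the two intervals `[u, u + l (k + 1)]` and `[u + l k - l (k + 1), u + l k]` of stage
`k + 1` -/
noncomputable def left (κ : ℕ → ℝ) : ℕ → Set ℝ
  | 0 => {0}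
  | k + 1 => {v | v ∈ left κ k ∨ v - (len κ k - len κ (k + 1)) ∈ left κ k}

/-- the symmetric Cantor set: the points which lie in an interval of each stage -/
def cantor (κ : ℕ → ℝ) : Set ℝ := {y | ∀ k, ∃ u ∈ left κ k, u ≤ y ∧ y ≤ u + len κ k}

theorem left_eq (κ : ℕ → ℝ) (k : ℕ) : left κ k = Pool.Agent.H56.ES.left κ k := by
  induction k with
  | zero => rfl
  | succ k ih =>
    show {v | v ∈ left κ k ∨ v - (len κ k - len κ (k + 1)) ∈ left κ k} =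
      {v | v ∈ Pool.Agent.H56.ES.left κ k ∨
        v - (Pool.Agent.H56.ES.len κ k - Pool.Agent.H56.ES.len κ (k + 1)) ∈ Pool.Agent.H56.ES.left κ k}
    rw [ih]
    rfl

theorem cantor_eq (κ : ℕ → ℝ) : cantor κ = Pool.Agent.H56.ES.cantor κ := by
  ext y
  constructor
  · intro h k
    obtain ⟨u, hu, h1⟩ := h k
    rw [left_eq] at hu
    exact ⟨u, hu, h1⟩
  · intro h k
    obtain ⟨u, hu, h1⟩ := h k
    rw [← left_eq] at hu
    exact ⟨u, hu, h1⟩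

theorem result :
    (∀ δ : ℝ, 0 < δ → δ < 1 → ∃ η : ℝ, 0 < η ∧
      ∀ x : ℕ → ℝ, (∀ n, x n ≠ 0) →
      ∀ (S : ℕ → Set ℝ) (h κ : ℕ → ℝ) (M : ℕ → ℕ) (w B : ℝ), 0 < B →
        (∀ j, 0 < h j ∧ h j ≤ w) → (∀ j, 0 < κ j) → (∀ j, 1 ≤ M j) →
        (∀ j, ∀ t : ℝ, κ j * h j ≤ 2 * (B * t) → Shell x (M j) t) →
        (∀ j, ∀ s ∈ S j, ∀ s' ∈ S j, s ≠ s' → h j ≤ |s - s'|) →
        Summable (fun j => M j * κ j ^ (1 - δ)) → ∑' j, M j * κ j ^ (1 - δ) ≤ η →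
        ∀ a₀ : ℝ, ∃ a b : ℝ, a₀ ≤ a ∧ a ≤ a₀ + w ∧ B ≤ b ∧ b ≤ 2 * B ∧
          ∀ n j, ∀ s ∈ S j, κ j * h j ≤ |a + b * x n - s|) ∧
    (∀ (δ : ℝ) (κ : ℕ → ℝ) (M : ℕ → ℕ) (x : ℕ → ℝ) (X : ℝ), 0 < δ → δ < 1 →
      (∀ k, 0 < κ k ∧ κ k < 1) → (∀ k, 1 ≤ M k) → Summable (fun k => M k * κ k ^ (1 - δ)) →
      (∀ n, x n ≠ 0) → (∀ n, |x n| ≤ X) →
      (∀ k, ∀ t : ℝ, κ k * len κ k ≤ t → Shell x (M k) t) →
      ∀ m, ∀ u ∈ left κ m, ∃ a b : ℝ, 0 < b ∧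
        ∀ n, a + b * x n ∈ cantor κ ∧ u ≤ a + b * x n ∧ a + b * x n ≤ u + len κ m) := by
  refine ⟨fun δ h0 h1 => Pool.Agent.H56.ES.dust δ h0 h1, ?_⟩
  intro δ κ M x X h0 h1 hκ hM1 hsum hx hX hM m u hu
  rw [left_eq] at hu
  rw [cantor_eq]
  exact Pool.Agent.H56.ES.cantor_copy hκ h0 h1 hM1 hsum hx hM hX m hu

end Pool.Agent.Results.MP_6045a2_an.UniformDust
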